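import Mathlib
import Pool.Agent.W792.GK.Stm

/-!
# Project GK: deterministic part of the freeness lemma
-/

set_option autoImplicit false
set_option linter.unusedSectionVars false

namespace Pool.Agent.W762.GKLf1

open Pool.Agent.W792.GK Finset

noncomputable section

/-! ### Euclidean operator norm bounds -/

theorem opb_mul {n : Type} [Fintype n] {A B : Matrix n n ℂ} {a b : ℝ} (hA : OpB A a)
    (hB : OpB B b) : OpB (A * B) (a * b) := by
  intro u
  rw [← Matrix.mulVec_mulVec]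
  calc ∑ i, ‖(A.mulVec (B.mulVec u)) i‖ ^ 2 ≤ a ^ 2 * ∑ i, ‖(B.mulVec u) i‖ ^ 2 := hA _
    _ ≤ a ^ 2 * (b ^ 2 * ∑ i, ‖u i‖ ^ 2) := mul_le_mul_of_nonneg_left (hB u) (sq_nonneg a)
    _ = (a * b) ^ 2 * ∑ i, ‖u i‖ ^ 2 := by ring

theorem opb_one {n : Type} [Fintype n] [DecidableEq n] : OpB (1 : Matrix n n ℂ) 1 := by
  intro u
  rw [Matrix.one_mulVec, one_pow, one_mul]

theorem opb_mul1 {n : Type} [Fintype n] {A B : Matrix n n ℂ} (hA : OpB A 1)
    (hB : OpB B 1) : OpB (A * B) 1 := by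
  have := opb_mul hA hB
  rwa [one_mul] at this

theorem opb_pow {n : Type} [Fintype n] [DecidableEq n] {A : Matrix n n ℂ} (hA : OpB A 1) (k : ℕ) :
    OpB (A ^ k) 1 := by
  induction k with
  | zero => rw [pow_zero]; exact opb_one
  | succ k ih => rw [pow_succ]; exact opb_mul1 ih hA

variable {Q J : Type} [Fintype Q] [DecidableEq Q] [Fintype J] [DecidableEq J]

theorem bd_mulVec (X : J → Matrix Q Q ℂ) (u : Q × J → ℂ) (x : Q) (j : J) :
    (Matrix.blockDiagonal X).mulVec u (x, j) = (X j).mulVec (fun y => u (y, j)) x := by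
  rw [Matrix.mulVec, dotProduct, Fintype.sum_prod_type, Matrix.mulVec, dotProduct]
  refine Finset.sum_congr rfl fun y _ => ?_
  rw [Finset.sum_eq_single j]
  · rw [Matrix.blockDiagonal_apply_eq]
  · intro j' _ hj
    rw [Matrix.blockDiagonal_apply_ne _ _ _ (Ne.symm hj), zero_mul]
  · intro h
    exact absurd (Finset.mem_univ _) h

theorem opb_bd {X : J → Matrix Q Q ℂ} (hX : ∀ j, OpB (X j) 1) :
    OpB (Matrix.blockDiagonal X) 1 := by
  intro u
  rw [Fintype.sum_prod_type_right, Fintype.sum_prod_type_right, Finset.mul_sum]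
  refine Finset.sum_le_sum fun j _ => ?_
  simp only [bd_mulVec]
  exact hX j _

theorem opb_zero {n : Type} [Fintype n] : OpB (0 : Matrix n n ℂ) 1 := by
  intro u
  rw [Matrix.zero_mulVec]
  have : 0 ≤ ∑ i, ‖u i‖ ^ 2 := Finset.sum_nonneg fun i _ => sq_nonneg _
  simpa using this

theorem opb_kil {X : J → Matrix Q Q ℂ} (hX : ∀ j, OpB (X j) 1) (i : J) :
    ∀ j, OpB (kil X i j) 1 := by
  intro j
  unfold kil
  by_cases h : j = i
  · subst h
    rw [Function.update_self]
    exact opb_zero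
  · rw [Function.update_of_ne h]
    exact hX j

theorem opb_Zk {T : Matrix (Q × J) (Q × J) ℂ} (hT : OpB T 1) {X : J → Matrix Q Q ℂ}
    (hX : ∀ j, OpB (X j) 1) (k : ℕ) : OpB (Zk T X k) 1 :=
  opb_mul1 hT (opb_pow (opb_mul1 (opb_bd hX) hT) k)

theorem col_le {n : Type} [Fintype n] {Z : Matrix n n ℂ} (hZ : OpB Z 1) (c : n) :
    ∑ r, ‖Z r c‖ ^ 2 ≤ 1 := by
  classical
  have h := hZ (Pi.single c 1)
  have h1 : ∀ r, (Z.mulVec (Pi.single c 1)) r = Z r c := by
    intro r
    rw [Matrix.mulVec_single_one]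
    rfl
  have h2 : ∑ i, ‖(Pi.single c (1 : ℂ) : n → ℂ) i‖ ^ 2 = 1 := by
    rw [Finset.sum_eq_single c]
    · rw [Pi.single_eq_same, norm_one, one_pow]
    · intro b _ hb
      rw [Pi.single_eq_of_ne hb, norm_zero]
      norm_num
    · intro h
      exact absurd (Finset.mem_univ _) h
  rw [h2] at h
  simp only [h1] at h
  linarith

theorem row_le {n : Type} [Fintype n] {Z : Matrix n n ℂ} (hZ : OpB Z 1) (r : n) :
    ∑ c, ‖Z r c‖ ^ 2 ≤ 1 := by
  classical
  have h := hZ (fun c => (starRingEnd ℂ) (Z r c))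
  have h1 : Z.mulVec (fun c => (starRingEnd ℂ) (Z r c)) r = ((∑ c, ‖Z r c‖ ^ 2 : ℝ) : ℂ) := by
    rw [Matrix.mulVec, dotProduct, Complex.ofReal_sum]
    refine Finset.sum_congr rfl fun c _ => ?_
    rw [Complex.mul_conj, Complex.normSq_eq_norm_sq]
  have h0 : 0 ≤ ∑ c, ‖Z r c‖ ^ 2 := Finset.sum_nonneg fun i _ => sq_nonneg _
  have h2 : ‖Z.mulVec (fun c => (starRingEnd ℂ) (Z r c)) r‖ ^ 2 ≤
      ∑ i, ‖Z.mulVec (fun c => (starRingEnd ℂ) (Z r c)) i‖ ^ 2 :=
    Finset.single_le_sum (f := fun i => ‖Z.mulVec (fun c => (starRingEnd ℂ) (Z r c)) i‖ ^ 2)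
      (fun i _ => sq_nonneg _) (Finset.mem_univ r)
  rw [h1, Complex.norm_real, Real.norm_of_nonneg h0] at h2
  have h3 : ∑ i, ‖(fun c => (starRingEnd ℂ) (Z r c)) i‖ ^ 2 = ∑ c, ‖Z r c‖ ^ 2 := by
    refine Finset.sum_congr rfl fun c _ => ?_
    rw [RCLike.norm_conj]
  rw [h3] at h
  by_contra hlt
  push Not at hlt
  nlinarith

/-! ### Frobenius norm -/

theorem fro_nonneg (M : Matrix Q Q ℂ) : 0 ≤ fro M :=
  Finset.sum_nonneg fun _ _ => Finset.sum_nonneg fun _ _ => sq_nonneg _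

theorem fro_le {M : Matrix Q Q ℂ} (hM : OpB M 1) : fro M ≤ Fintype.card Q := by
  unfold fro
  calc ∑ x, ∑ y, ‖M x y‖ ^ 2 ≤ ∑ _x : Q, (1 : ℝ) := Finset.sum_le_sum fun x _ => row_le hM x
    _ = Fintype.card Q := by simp

theorem sum_blk_col {Z : Matrix (Q × J) (Q × J) ℂ} (hZ : OpB Z 1) (p : J) :
    ∑ j, fro (blk Z j p) ≤ Fintype.card Q := by
  unfold fro blk
  have h1 : ∑ j : J, ∑ x : Q, ∑ y : Q, ‖Z (x, j) (y, p)‖ ^ 2 =
      ∑ y : Q, ∑ r : Q × J, ‖Z r (y, p)‖ ^ 2 := by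
    have h2 : ∀ y : Q, ∑ r : Q × J, ‖Z r (y, p)‖ ^ 2 = ∑ j : J, ∑ x : Q, ‖Z (x, j) (y, p)‖ ^ 2 :=
      fun y => Fintype.sum_prod_type_right _
    simp only [h2]
    rw [Finset.sum_comm (s := (univ : Finset Q)) (t := (univ : Finset J))]
    refine Finset.sum_congr rfl fun j _ => ?_
    rw [Finset.sum_comm]
  rw [h1]
  calc ∑ y : Q, ∑ r : Q × J, ‖Z r (y, p)‖ ^ 2 ≤ ∑ _y : Q, (1 : ℝ) :=
        Finset.sum_le_sum fun y _ => col_le hZ (y, p)
    _ = Fintype.card Q := by simp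

theorem sum_blk_row {Z : Matrix (Q × J) (Q × J) ℂ} (hZ : OpB Z 1) (p : J) :
    ∑ j, fro (blk Z p j) ≤ Fintype.card Q := by
  unfold fro blk
  have h1 : ∑ j : J, ∑ x : Q, ∑ y : Q, ‖Z (x, p) (y, j)‖ ^ 2 =
      ∑ x : Q, ∑ r : Q × J, ‖Z (x, p) r‖ ^ 2 := by
    have h2 : ∀ x : Q, ∑ r : Q × J, ‖Z (x, p) r‖ ^ 2 = ∑ j : J, ∑ y : Q, ‖Z (x, p) (y, j)‖ ^ 2 :=
      fun x => Fintype.sum_prod_type_right _
    simp only [h2]
    rw [Finset.sum_comm (s := (univ : Finset Q)) (t := (univ : Finset J))]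
  rw [h1]
  calc ∑ x : Q, ∑ r : Q × J, ‖Z (x, p) r‖ ^ 2 ≤ ∑ _x : Q, (1 : ℝ) :=
        Finset.sum_le_sum fun x _ => row_le hZ (x, p)
    _ = Fintype.card Q := by simp

theorem fro_blk_le {Z : Matrix (Q × J) (Q × J) ℂ} (hZ : OpB Z 1) (i p : J) :
    fro (blk Z i p) ≤ Fintype.card Q :=
  le_trans (Finset.single_le_sum (f := fun j => fro (blk Z j p)) (fun _ _ => fro_nonneg _)
    (Finset.mem_univ i)) (sum_blk_col hZ p)

theorem fro_mul (M N : Matrix Q Q ℂ) : fro (M * N) ≤ fro M * fro N := by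
  have h1 : ∀ x y, ‖(M * N) x y‖ ^ 2 ≤ (∑ z, ‖M x z‖ ^ 2) * ∑ z, ‖N z y‖ ^ 2 := by
    intro x y
    rw [Matrix.mul_apply]
    have h2 : ‖∑ z, M x z * N z y‖ ≤ ∑ z, ‖M x z‖ * ‖N z y‖ := by
      refine (norm_sum_le _ _).trans (le_of_eq ?_)
      exact Finset.sum_congr rfl fun z _ => norm_mul _ _
    calc ‖∑ z, M x z * N z y‖ ^ 2 ≤ (∑ z, ‖M x z‖ * ‖N z y‖) ^ 2 :=
          pow_le_pow_left₀ (norm_nonneg _) h2 2
      _ ≤ _ := Finset.sum_mul_sq_le_sq_mul_sq _ _ _
  unfold fro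
  calc ∑ x, ∑ y, ‖(M * N) x y‖ ^ 2 ≤ ∑ x, ∑ y, (∑ z, ‖M x z‖ ^ 2) * ∑ z, ‖N z y‖ ^ 2 :=
        Finset.sum_le_sum fun x _ => Finset.sum_le_sum fun y _ => h1 x y
    _ = (∑ x, ∑ y, ‖M x y‖ ^ 2) * ∑ x, ∑ y, ‖N x y‖ ^ 2 := by
        rw [Finset.sum_mul]
        refine Finset.sum_congr rfl fun x _ => ?_
        rw [← Finset.mul_sum, Finset.sum_comm (f := fun x y => ‖N x y‖ ^ 2)]

theorem fro_sub_sum (k : ℕ) (A : Matrix Q Q ℂ) (B : ℕ → Matrix Q Q ℂ) :
    fro (A - ∑ i ∈ range k, B i) ≤ 2 * (k + 1) * (fro A + ∑ i ∈ range k, fro (B i)) := by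
  have h1 : ∀ x y, ‖(A - ∑ i ∈ range k, B i) x y‖ ^ 2 ≤
      2 * (k + 1) * (‖A x y‖ ^ 2 + ∑ i ∈ range k, ‖B i x y‖ ^ 2) := by
    intro x y
    rw [Matrix.sub_apply, Matrix.sum_apply]
    have h2 : ‖A x y - ∑ i ∈ range k, B i x y‖ ≤ ‖A x y‖ + ∑ i ∈ range k, ‖B i x y‖ :=
      (norm_sub_le _ _).trans (by gcongr; exact norm_sum_le _ _)
    have h3 : (∑ i ∈ range k, ‖B i x y‖) ^ 2 ≤ (k : ℝ) * ∑ i ∈ range k, ‖B i x y‖ ^ 2 := by
      have := sq_sum_le_card_mul_sum_sq (s := range k) (f := fun i => ‖B i x y‖)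
      rwa [Finset.card_range] at this
    have h4 : 0 ≤ ∑ i ∈ range k, ‖B i x y‖ ^ 2 := Finset.sum_nonneg fun i _ => sq_nonneg _
    have h5 : (0 : ℝ) ≤ k := Nat.cast_nonneg k
    calc ‖A x y - ∑ i ∈ range k, B i x y‖ ^ 2 ≤ (‖A x y‖ + ∑ i ∈ range k, ‖B i x y‖) ^ 2 :=
          pow_le_pow_left₀ (norm_nonneg _) h2 2
      _ ≤ 2 * ‖A x y‖ ^ 2 + 2 * (∑ i ∈ range k, ‖B i x y‖) ^ 2 := by
          nlinarith [sq_nonneg (‖A x y‖ - ∑ i ∈ range k, ‖B i x y‖)]
      _ ≤ 2 * ‖A x y‖ ^ 2 + 2 * ((k : ℝ) * ∑ i ∈ range k, ‖B i x y‖ ^ 2) := by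
          linarith
      _ ≤ _ := by nlinarith [mul_nonneg h5 (sq_nonneg ‖A x y‖)]
  unfold fro
  calc ∑ x, ∑ y, ‖(A - ∑ i ∈ range k, B i) x y‖ ^ 2
      ≤ ∑ x, ∑ y, 2 * (k + 1) * (‖A x y‖ ^ 2 + ∑ i ∈ range k, ‖B i x y‖ ^ 2) :=
        Finset.sum_le_sum fun x _ => Finset.sum_le_sum fun y _ => h1 x y
    _ = _ := by
        simp only [← Finset.mul_sum, Finset.sum_add_distrib]
        congr 2
        have h6 : ∀ x : Q, ∑ y : Q, ∑ i ∈ range k, ‖B i x y‖ ^ 2 =
            ∑ i ∈ range k, ∑ y : Q, ‖B i x y‖ ^ 2 := fun x => Finset.sum_comm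
        simp only [h6]
        rw [Finset.sum_comm]

/-! ### Identities -/

theorem tele {R : Type*} [Ring R] (a b : R) (k : ℕ) :
    a ^ k = b ^ k + ∑ i ∈ range k, b ^ i * (a - b) * a ^ (k - 1 - i) := by
  induction k with
  | zero => simp
  | succ k ih =>
    have h1 : a ^ (k + 1) = a ^ k * a := pow_succ a k
    rw [h1, ih, add_mul, Finset.sum_mul, Finset.sum_range_succ]
    have h2 : ∑ i ∈ range k, b ^ i * (a - b) * a ^ (k - 1 - i) * a =
        ∑ i ∈ range k, b ^ i * (a - b) * a ^ (k + 1 - 1 - i) := by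
      refine Finset.sum_congr rfl fun i hi => ?_
      rw [Finset.mem_range] at hi
      rw [mul_assoc _ _ a, ← pow_succ]
      congr 2
      omega
    rw [h2]
    have h3 : k + 1 - 1 - k = 0 := by omega
    rw [h3, pow_zero, mul_one, pow_succ b k]
    noncomm_ring

theorem Zk_sub (T : Matrix (Q × J) (Q × J) ℂ) (X Y : J → Matrix Q Q ℂ) (k : ℕ) :
    Zk T X k = Zk T Y k + ∑ i ∈ range k, Zk T Y i *
      Matrix.blockDiagonal (fun j => X j - Y j) * Zk T X (k - 1 - i) := by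
  have hd : Matrix.blockDiagonal (fun j => X j - Y j) =
      Matrix.blockDiagonal X - Matrix.blockDiagonal Y := by
    have := Matrix.blockDiagonal_sub X Y
    rw [← this]
    rfl
  unfold Zk
  rw [tele (Matrix.blockDiagonal X * T) (Matrix.blockDiagonal Y * T) k, mul_add, Finset.mul_sum]
  congr 1
  refine Finset.sum_congr rfl fun i _ => ?_
  rw [hd, ← sub_mul]
  simp only [mul_assoc]

theorem blk_mid (Z Z' : Matrix (Q × J) (Q × J) ℂ) (D : J → Matrix Q Q ℂ) (j : J)
    (hD : ∀ i, i ≠ j → D i = 0) (a b : J) :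
    blk (Z * Matrix.blockDiagonal D * Z') a b = blk Z a j * D j * blk Z' j b := by
  ext x y
  have h1 : ∀ c : Q × J, (Z * Matrix.blockDiagonal D) (x, a) c =
      if c.2 = j then ∑ u : Q, Z (x, a) (u, j) * D j u c.1 else 0 := by
    rintro ⟨c, l⟩
    rw [Matrix.mul_apply, Fintype.sum_prod_type_right]
    rw [Finset.sum_eq_single l]
    · simp only [Matrix.blockDiagonal_apply_eq]
      by_cases hl : l = j
      · subst hl
        rw [if_pos rfl]
      · rw [if_neg hl, hD l hl]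
        simp
    · intro l' _ hl'
      refine Finset.sum_eq_zero fun u _ => ?_
      rw [Matrix.blockDiagonal_apply_ne _ _ _ hl', mul_zero]
    · intro h
      exact absurd (Finset.mem_univ _) h
  have h2 : blk (Z * Matrix.blockDiagonal D * Z') a b x y =
      ∑ c : Q × J, (Z * Matrix.blockDiagonal D) (x, a) c * Z' c (y, b) := by
    unfold blk
    rw [Matrix.mul_apply]
  rw [h2, Fintype.sum_prod_type_right, Finset.sum_eq_single j]
  · rw [Matrix.mul_apply]
    refine Finset.sum_congr rfl fun c _ => ?_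
    rw [h1, if_pos rfl, Matrix.mul_apply]
    rfl
  · intro l _ hl
    refine Finset.sum_eq_zero fun c _ => ?_
    rw [h1, if_neg hl, zero_mul]
  · intro h
    exact absurd (Finset.mem_univ _) h

theorem blk_add (Z Z' : Matrix (Q × J) (Q × J) ℂ) (a b : J) :
    blk (Z + Z') a b = blk Z a b + blk Z' a b := rfl

theorem blk_sum (k : ℕ) (Z : ℕ → Matrix (Q × J) (Q × J) ℂ) (a b : J) :
    blk (∑ i ∈ range k, Z i) a b = ∑ i ∈ range k, blk (Z i) a b := by
  ext x y
  rw [Matrix.sum_apply]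
  change (∑ i ∈ range k, Z i) (x, a) (y, b) = ∑ i ∈ range k, Z i (x, a) (y, b)
  rw [Matrix.sum_apply]

/-- Removing the block at `j`. -/
theorem rem1 (T : Matrix (Q × J) (Q × J) ℂ) (X : J → Matrix Q Q ℂ) (k : ℕ) (j a b : J) :
    blk (Zk T X k) a b = blk (Zk T (kil X j) k) a b +
      ∑ i ∈ range k, blk (Zk T (kil X j) i) a j * X j * blk (Zk T X (k - 1 - i)) j b := by
  have hD : ∀ i, i ≠ j → (fun l => X l - kil X j l) i = 0 := by
    intro i hi
    change X i - kil X j i = 0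
    unfold kil
    rw [Function.update_of_ne hi, sub_self]
  have hj : X j - kil X j j = X j := by
    unfold kil
    rw [Function.update_self, sub_zero]
  rw [Zk_sub T X (kil X j) k, blk_add, blk_sum]
  congr 1
  refine Finset.sum_congr rfl fun i _ => ?_
  rw [blk_mid _ _ _ j hD, hj]

/-- Removing the block at `j`, second form. -/
theorem rem2 (T : Matrix (Q × J) (Q × J) ℂ) (X : J → Matrix Q Q ℂ) (k : ℕ) (j a b : J) :
    blk (Zk T (kil X j) k) a b = blk (Zk T X k) a b -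
      ∑ i ∈ range k, blk (Zk T X i) a j * X j * blk (Zk T (kil X j) (k - 1 - i)) j b := by
  have hD : ∀ i, i ≠ j → (fun l => kil X j l - X l) i = 0 := by
    intro i hi
    change kil X j i - X i = 0
    unfold kil
    rw [Function.update_of_ne hi, sub_self]
  have hj : kil X j j - X j = - X j := by
    unfold kil
    rw [Function.update_self, zero_sub]
  rw [Zk_sub T (kil X j) X k, blk_add, blk_sum, sub_eq_add_neg, ← Finset.sum_neg_distrib]
  congr 1
  refine Finset.sum_congr rfl fun i _ => ?_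
  rw [blk_mid _ _ _ j hD, hj]
  simp only [Matrix.mul_neg, Matrix.neg_mul]

/-! ### Bounds -/

/-- Cumulative sum. -/
def cs (T : Matrix (Q × J) (Q × J) ℂ) (X : J → Matrix Q Q ℂ) (K : ℕ) (a b : J) : ℝ :=
  ∑ l ∈ range (K + 1), fro (blk (Zk T X l) a b)

theorem cs_nonneg (T : Matrix (Q × J) (Q × J) ℂ) (X : J → Matrix Q Q ℂ) (K : ℕ) (a b : J) :
    0 ≤ cs T X K a b := Finset.sum_nonneg fun _ _ => fro_nonneg _

theorem le_cs (T : Matrix (Q × J) (Q × J) ℂ) (X : J → Matrix Q Q ℂ) {K k : ℕ} (hk : k ≤ K)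
    (a b : J) : fro (blk (Zk T X k) a b) ≤ cs T X K a b :=
  Finset.single_le_sum (f := fun l => fro (blk (Zk T X l) a b)) (fun _ _ => fro_nonneg _)
    (Finset.mem_range.2 (by omega))

theorem sum_le_cs (T : Matrix (Q × J) (Q × J) ℂ) (X : J → Matrix Q Q ℂ) {K k : ℕ} (hk : k ≤ K)
    (a b : J) : ∑ i ∈ range k, fro (blk (Zk T X i) a b) ≤ cs T X K a b :=
  Finset.sum_le_sum_of_subset_of_nonneg
    (Finset.range_subset_range.2 (by omega)) (fun _ _ _ => fro_nonneg _)

theorem sum_le_cs' (T : Matrix (Q × J) (Q × J) ℂ) (X : J → Matrix Q Q ℂ) {K k : ℕ} (hk : k ≤ K)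
    (a b : J) : ∑ i ∈ range k, fro (blk (Zk T X (k - 1 - i)) a b) ≤ cs T X K a b := by
  rw [Finset.sum_range_reflect (fun i => fro (blk (Zk T X i) a b)) k]
  exact sum_le_cs T X hk a b

/-- The constant. -/
def cc (q : ℝ) (K : ℕ) : ℝ := 2 * (K + 1) * (1 + q ^ 2)

theorem cc_nonneg (q : ℝ) (K : ℕ) : 0 ≤ cc q K := by
  unfold cc; positivity

theorem bd1 {T : Matrix (Q × J) (Q × J) ℂ} (hT : OpB T 1) {X : J → Matrix Q Q ℂ}
    (hX : ∀ j, OpB (X j) 1) {K k : ℕ} (hk : k ≤ K) (j a b : J) :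
    fro (blk (Zk T (kil X j) k) a b) ≤
      cc (Fintype.card Q) K * (cs T X K a b + cs T X K j b) := by
  set q : ℝ := (Fintype.card Q : ℝ) with hq
  have hq0 : 0 ≤ q := Nat.cast_nonneg _
  have h := rem1 T X k j a b
  have h' : blk (Zk T (kil X j) k) a b = blk (Zk T X k) a b -
      ∑ i ∈ range k, blk (Zk T (kil X j) i) a j * X j * blk (Zk T X (k - 1 - i)) j b := by
    rw [h, add_sub_cancel_right]
  rw [h']
  refine (fro_sub_sum _ _ _).trans ?_
  have h1 : ∀ i ∈ range k,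
      fro (blk (Zk T (kil X j) i) a j * X j * blk (Zk T X (k - 1 - i)) j b) ≤
        q ^ 2 * fro (blk (Zk T X (k - 1 - i)) j b) := by
    intro i _
    refine (fro_mul _ _).trans (mul_le_mul_of_nonneg_right ?_ (fro_nonneg _))
    refine (fro_mul _ _).trans ?_
    rw [sq]
    exact mul_le_mul (fro_blk_le (opb_Zk hT (opb_kil hX j) i) a j) (fro_le (hX j))
      (fro_nonneg _) hq0
  have h2 : ∑ i ∈ range k,
      fro (blk (Zk T (kil X j) i) a j * X j * blk (Zk T X (k - 1 - i)) j b) ≤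
        q ^ 2 * cs T X K j b := by
    refine (Finset.sum_le_sum h1).trans ?_
    rw [← Finset.mul_sum]
    exact mul_le_mul_of_nonneg_left (sum_le_cs' T X hk j b) (sq_nonneg q)
  have h3 := le_cs T X hk a b
  have h4 := cs_nonneg T X K a b
  have h5 := cs_nonneg T X K j b
  have hkK : (k : ℝ) ≤ K := by exact_mod_cast hk
  calc 2 * ((k : ℝ) + 1) * (fro (blk (Zk T X k) a b) + ∑ i ∈ range k,
      fro (blk (Zk T (kil X j) i) a j * X j * blk (Zk T X (k - 1 - i)) j b))
      ≤ 2 * ((K : ℝ) + 1) * (cs T X K a b + q ^ 2 * cs T X K j b) := by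
        apply mul_le_mul _ _ _ _
        · linarith
        · linarith
        · exact add_nonneg (fro_nonneg _) (Finset.sum_nonneg fun _ _ => fro_nonneg _)
        · positivity
    _ ≤ 2 * ((K : ℝ) + 1) * ((1 + q ^ 2) * (cs T X K a b + cs T X K j b)) := by
        apply mul_le_mul_of_nonneg_left _ (by positivity)
        nlinarith [mul_nonneg (sq_nonneg q) h4]
    _ = cc q K * (cs T X K a b + cs T X K j b) := by
        unfold cc; ring

theorem bd2 {T : Matrix (Q × J) (Q × J) ℂ} (hT : OpB T 1) {X : J → Matrix Q Q ℂ}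
    (hX : ∀ j, OpB (X j) 1) {K k : ℕ} (hk : k ≤ K) (j a : J) :
    fro (blk (Zk T (kil X j) k) a j) ≤ cc (Fintype.card Q) K * cs T X K a j := by
  set q : ℝ := (Fintype.card Q : ℝ) with hq
  have hq0 : 0 ≤ q := Nat.cast_nonneg _
  rw [rem2]
  refine (fro_sub_sum _ _ _).trans ?_
  have h1 : ∀ i ∈ range k,
      fro (blk (Zk T X i) a j * X j * blk (Zk T (kil X j) (k - 1 - i)) j j) ≤
        q ^ 2 * fro (blk (Zk T X i) a j) := by
    intro i _
    refine (fro_mul _ _).trans ?_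
    have h3 : fro (blk (Zk T X i) a j * X j) ≤ fro (blk (Zk T X i) a j) * q :=
      (fro_mul _ _).trans (mul_le_mul_of_nonneg_left (fro_le (hX j)) (fro_nonneg _))
    calc fro (blk (Zk T X i) a j * X j) * fro (blk (Zk T (kil X j) (k - 1 - i)) j j)
        ≤ (fro (blk (Zk T X i) a j) * q) * q :=
          mul_le_mul h3 (fro_blk_le (opb_Zk hT (opb_kil hX j) _) j j) (fro_nonneg _)
            (mul_nonneg (fro_nonneg _) hq0)
      _ = q ^ 2 * fro (blk (Zk T X i) a j) := by ring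
  have h2 : ∑ i ∈ range k,
      fro (blk (Zk T X i) a j * X j * blk (Zk T (kil X j) (k - 1 - i)) j j) ≤
        q ^ 2 * cs T X K a j := by
    refine (Finset.sum_le_sum h1).trans ?_
    rw [← Finset.mul_sum]
    exact mul_le_mul_of_nonneg_left (sum_le_cs T X hk a j) (sq_nonneg q)
  have h3 := le_cs T X hk a j
  have h4 := cs_nonneg T X K a j
  have hkK : (k : ℝ) ≤ K := by exact_mod_cast hk
  calc 2 * ((k : ℝ) + 1) * (fro (blk (Zk T X k) a j) + ∑ i ∈ range k,
      fro (blk (Zk T X i) a j * X j * blk (Zk T (kil X j) (k - 1 - i)) j j))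
      ≤ 2 * ((K : ℝ) + 1) * (cs T X K a j + q ^ 2 * cs T X K a j) := by
        apply mul_le_mul _ _ _ _
        · linarith
        · linarith
        · exact add_nonneg (fro_nonneg _) (Finset.sum_nonneg fun _ _ => fro_nonneg _)
        · positivity
    _ = cc q K * cs T X K a j := by
        unfold cc; ring

theorem sum_cs_col {T : Matrix (Q × J) (Q × J) ℂ} (hT : OpB T 1) {X : J → Matrix Q Q ℂ}
    (hX : ∀ j, OpB (X j) 1) (K : ℕ) (p : J) :
    ∑ j, cs T X K j p ≤ (K + 1) * Fintype.card Q := by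
  unfold cs
  rw [Finset.sum_comm]
  calc ∑ l ∈ range (K + 1), ∑ j, fro (blk (Zk T X l) j p)
      ≤ ∑ _l ∈ range (K + 1), (Fintype.card Q : ℝ) :=
        Finset.sum_le_sum fun l _ => sum_blk_col (opb_Zk hT hX l) p
    _ = (K + 1) * Fintype.card Q := by
        rw [Finset.sum_const, Finset.card_range, nsmul_eq_mul]
        push_cast
        ring

theorem sum_cs_row {T : Matrix (Q × J) (Q × J) ℂ} (hT : OpB T 1) {X : J → Matrix Q Q ℂ}
    (hX : ∀ j, OpB (X j) 1) (K : ℕ) (p : J) :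
    ∑ j, cs T X K p j ≤ (K + 1) * Fintype.card Q := by
  unfold cs
  rw [Finset.sum_comm]
  calc ∑ l ∈ range (K + 1), ∑ j, fro (blk (Zk T X l) p j)
      ≤ ∑ _l ∈ range (K + 1), (Fintype.card Q : ℝ) :=
        Finset.sum_le_sum fun l _ => sum_blk_row (opb_Zk hT hX l) p
    _ = (K + 1) * Fintype.card Q := by
        rw [Finset.sum_const, Finset.card_range, nsmul_eq_mul]
        push_cast
        ring

/-- The difference of double removals. -/
theorem bd3 {T : Matrix (Q × J) (Q × J) ℂ} (hT : OpB T 1) {X : J → Matrix Q Q ℂ}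
    (hX : ∀ j, OpB (X j) 1) (k : ℕ) (j j' p : J) :
    fro (blk (Zk T (kil X j) k) j p - blk (Zk T (kil (kil X j) j') k) j p) ≤
      (4 * (k + 1) * k * cc (Fintype.card Q) k ^ 3 * (k + 1) * Fintype.card Q) *
        (cs T X k j j' * (cs T X k j' p + cs T X k j p)) := by
  set q : ℝ := (Fintype.card Q : ℝ) with hq
  set c : ℝ := cc q k with hc
  have hq0 : 0 ≤ q := Nat.cast_nonneg _
  have hc0 : 0 ≤ c := cc_nonneg _ _
  have hX' := opb_kil hX j
  have h := rem1 T (kil X j) k j' j p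
  have h' : blk (Zk T (kil X j) k) j p - blk (Zk T (kil (kil X j) j') k) j p =
      -((0 : Matrix Q Q ℂ) - ∑ i ∈ range k, (blk (Zk T (kil (kil X j) j') i) j j' * kil X j j' *
        blk (Zk T (kil X j) (k - 1 - i)) j' p)) := by
    rw [h]
    abel
  have hneg : ∀ M : Matrix Q Q ℂ, fro (-M) = fro M := by
    intro M
    unfold fro
    simp only [Matrix.neg_apply, norm_neg]
  have hz : fro (0 : Matrix Q Q ℂ) = 0 := by
    unfold fro
    simp
  rw [h', hneg]
  refine (fro_sub_sum _ _ _).trans ?_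
  rw [hz, zero_add]
  have h1 : cs T (kil X j) k j j' ≤ ((k : ℝ) + 1) * (c * (2 * cs T X k j j')) := by
    calc cs T (kil X j) k j j' ≤ ∑ _l ∈ range (k + 1), c * (2 * cs T X k j j') := by
          refine Finset.sum_le_sum fun l hl => ?_
          rw [Finset.mem_range] at hl
          have := bd1 hT hX (K := k) (k := l) (by omega) j j j'
          rw [← hq, ← hc] at this
          linarith
      _ = ((k : ℝ) + 1) * (c * (2 * cs T X k j j')) := by
          rw [Finset.sum_const, Finset.card_range, nsmul_eq_mul]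
          push_cast
          ring
  have h2 : ∀ i ∈ range k, fro (blk (Zk T (kil (kil X j) j') i) j j' * kil X j j' *
        blk (Zk T (kil X j) (k - 1 - i)) j' p) ≤
      ((c * (((k : ℝ) + 1) * (c * (2 * cs T X k j j')))) * q) *
        (c * (cs T X k j' p + cs T X k j p)) := by
    intro i hi
    rw [Finset.mem_range] at hi
    have h3 : fro (blk (Zk T (kil (kil X j) j') i) j j') ≤
        c * (((k : ℝ) + 1) * (c * (2 * cs T X k j j'))) := by
      have := bd2 hT hX' (K := k) (k := i) (by omega) j' j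
      rw [← hq, ← hc] at this
      exact this.trans (mul_le_mul_of_nonneg_left h1 hc0)
    have h4 : fro (blk (Zk T (kil X j) (k - 1 - i)) j' p) ≤
        c * (cs T X k j' p + cs T X k j p) := by
      have := bd1 hT hX (K := k) (k := k - 1 - i) (by omega) j j' p
      rw [← hq, ← hc] at this
      exact this
    have h5 := cs_nonneg T X k j j'
    refine (fro_mul _ _).trans ?_
    refine mul_le_mul ?_ h4 (fro_nonneg _) (by positivity)
    refine (fro_mul _ _).trans ?_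
    exact mul_le_mul h3 (fro_le (hX' j')) (fro_nonneg _) (by positivity)
  calc 2 * ((k : ℝ) + 1) * ∑ i ∈ range k, fro (blk (Zk T (kil (kil X j) j') i) j j' * kil X j j' *
        blk (Zk T (kil X j) (k - 1 - i)) j' p)
      ≤ 2 * ((k : ℝ) + 1) * ∑ _i ∈ range k,
        ((c * (((k : ℝ) + 1) * (c * (2 * cs T X k j j')))) * q) *
        (c * (cs T X k j' p + cs T X k j p)) :=
        mul_le_mul_of_nonneg_left (Finset.sum_le_sum h2) (by positivity)
    _ = _ := by
        rw [Finset.sum_const, Finset.card_range, nsmul_eq_mul]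
        ring

theorem main : S_LF1 := by
  intro k Q _ _
  set q : ℝ := (Fintype.card Q : ℝ) with hq
  have hq0 : 0 ≤ q := Nat.cast_nonneg _
  have hc0 : 0 ≤ cc q k := cc_nonneg _ _
  set M : ℝ := 4 * (k + 1) * k * cc q k ^ 3 * (k + 1) * q with hM
  have hM0 : 0 ≤ M := by positivity
  set W : ℝ := ((k : ℝ) + 1) * q with hW
  have hW0 : 0 ≤ W := by positivity
  refine ⟨q + cc q k * (2 * W) + M * (2 * W ^ 2), by positivity, ?_⟩
  intro J _ _ T hT X hX p
  refine ⟨fun j => rem1 T X k j j p, ?_, ?_, ?_⟩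
  · have h1 := sum_blk_col (opb_Zk hT hX k) p
    rw [← hq] at h1
    have h2 : 0 ≤ cc q k * (2 * W) := by positivity
    have h3 : 0 ≤ M * (2 * W ^ 2) := by positivity
    linarith
  · have h1 : ∑ j, fro (blk (Zk T (kil X j) k) j p) ≤ cc q k * (2 * W) := by
      calc ∑ j, fro (blk (Zk T (kil X j) k) j p)
          ≤ ∑ j, cc q k * (2 * cs T X k j p) := by
            refine Finset.sum_le_sum fun j _ => ?_
            have := bd1 hT hX (K := k) (k := k) le_rfl j j p
            rw [← hq] at this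
            linarith
        _ = cc q k * (2 * ∑ j, cs T X k j p) := by
            rw [← Finset.mul_sum, ← Finset.mul_sum]
        _ ≤ cc q k * (2 * W) := by
            refine mul_le_mul_of_nonneg_left ?_ hc0
            have := sum_cs_col hT hX k p
            rw [← hq] at this
            linarith
    have h3 : 0 ≤ M * (2 * W ^ 2) := by positivity
    linarith
  · have h1 : ∑ j, ∑ j' ∈ univ.erase j, fro (blk (Zk T (kil X j) k) j p
        - blk (Zk T (kil (kil X j) j') k) j p) ≤ M * (2 * W ^ 2) := by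
      calc ∑ j, ∑ j' ∈ univ.erase j, fro (blk (Zk T (kil X j) k) j p
            - blk (Zk T (kil (kil X j) j') k) j p)
          ≤ ∑ j, ∑ j', fro (blk (Zk T (kil X j) k) j p
            - blk (Zk T (kil (kil X j) j') k) j p) :=
            Finset.sum_le_sum fun j _ => Finset.sum_le_sum_of_subset_of_nonneg
              (Finset.erase_subset _ _) (fun _ _ _ => fro_nonneg _)
        _ ≤ ∑ j, ∑ j', M * (cs T X k j j' * (cs T X k j' p + cs T X k j p)) := by
            refine Finset.sum_le_sum fun j _ => Finset.sum_le_sum fun j' _ => ?_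
            exact bd3 hT hX k j j' p
        _ = M * ((∑ j', (∑ j, cs T X k j j') * cs T X k j' p) +
              ∑ j, (∑ j', cs T X k j j') * cs T X k j p) := by
            simp only [← Finset.mul_sum, mul_add, Finset.sum_add_distrib, Finset.sum_mul]
            congr 2
            rw [Finset.sum_comm]
        _ ≤ M * (W * W + W * W) := by
            refine mul_le_mul_of_nonneg_left ?_ hM0
            refine add_le_add ?_ ?_
            · calc ∑ j', (∑ j, cs T X k j j') * cs T X k j' p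
                  ≤ ∑ j', W * cs T X k j' p := Finset.sum_le_sum fun j' _ =>
                    mul_le_mul_of_nonneg_right (sum_cs_col hT hX k j') (cs_nonneg _ _ _ _ _)
                _ = W * ∑ j', cs T X k j' p := by rw [Finset.mul_sum]
                _ ≤ W * W := mul_le_mul_of_nonneg_left (sum_cs_col hT hX k p) hW0
            · calc ∑ j, (∑ j', cs T X k j j') * cs T X k j p
                  ≤ ∑ j, W * cs T X k j p := Finset.sum_le_sum fun j _ =>
                    mul_le_mul_of_nonneg_right (sum_cs_row hT hX k j) (cs_nonneg _ _ _ _ _)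
                _ = W * ∑ j, cs T X k j p := by rw [Finset.mul_sum]
                _ ≤ W * W := mul_le_mul_of_nonneg_left (sum_cs_col hT hX k p) hW0
        _ = M * (2 * W ^ 2) := by ring
    have h2 : 0 ≤ cc q k * (2 * W) := by positivity
    linarith

end

end Pool.Agent.W762.GKLf1
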